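import Pool.Agent.MP_763ca5_pr.Final

set_option autoImplicit false

open Filter unitInterval
open scoped ENNReal Topology

namespace Pool.Agent.Results.MP_763ca5_pr.NoLinearCover

open Pool.Agent.MP_763ca5_pr

/-- For every sequence of connected `d k`-regular graphs `G k` on `n k` vertices with `d k → ∞` and
every sequence of biases `ε k ∈ (0, 1]` with `ε k → 0`, the `ε k`-biased cover time of `G k`
divided by `n k` tends to infinity. -/
theorem result (n d : ℕ → ℕ) (G : ∀ k, SimpleGraph (Fin (n k)))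
    [∀ k, DecidableRel (G k).Adj] (ε : ℕ → I)
    (hconn : ∀ k, (G k).Connected) (hreg : ∀ k, (G k).IsRegularOfDegree (d k))
    (hd : Tendsto d atTop atTop) (_hpos : ∀ k, 0 < ε k)
    (hε : Tendsto (fun k => (ε k : ℝ)) atTop (𝓝 0)) :
    Tendsto (fun k => tcov (G k) (ε k) / (n k : ℝ≥0∞)) atTop (𝓝 ⊤) :=
  ratio_tendsto n d G ε hconn hreg hd hε

end Pool.Agent.Results.MP_763ca5_pr.NoLinearCover
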